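import Mathlib

open Finset Filter

namespace Pool.Agent.Results.MP_eea90e_nt.Divergent

/-- the trajectory `x_0 = x`, `x_n = (3 x_(n-1) + 1) / 2^(a_n)` -/
def orb (x : ℕ) : ℕ → ℕ
  | 0 => x
  | n + 1 => (3 * orb x n + 1) / 2 ^ padicValNat 2 (3 * orb x n + 1)

/-- the E-sequence of `x`: for `n ≥ 1`, the exponent of `2` in `3 x_(n-1) + 1` -/
def eseq (x n : ℕ) : ℕ := padicValNat 2 (3 * orb x (n - 1) + 1)

/-- eventually periodic sequences -/
def EvPeriodic (a : ℕ → ℕ) : Prop := ∃ l r, 1 ≤ r ∧ ∀ n, l < n → a (n + r) = a n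

/-- `b_n = a_1 + ... + a_n` -/
def b (a : ℕ → ℕ) (n : ℕ) : ℕ := ∑ i ∈ Icc 1 n, a i

def T (y : ℕ) : ℕ := if y % 2 = 0 then y / 2 else (3 * y + 1) / 2

def J : ℕ → ℕ → ℕ
  | 0, _ => 0
  | k + 1, y => y % 2 + J k (T y)

lemma sum_two (f : ℕ → ℝ) (n : ℕ) :
    ∑ i ∈ range (2 * n), f i = ∑ i ∈ range n, f (2 * i) + ∑ i ∈ range n, f (2 * i + 1) := by
  induction n with
  | zero => simp
  | succ n ih => rw [mul_add, mul_one, sum_range_succ, sum_range_succ, ih, sum_range_succ,
      sum_range_succ]; ring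

lemma sumJ (t : ℝ) (k : ℕ) : ∀ a d : ℕ, d % 2 = 1 →
    ∑ i ∈ range (2 ^ k), t ^ J k (a + d * i) = (1 + t) ^ k := by
  induction k with
  | zero => simp [J]
  | succ k ih =>
    have h0 : ∀ a d : ℕ, d % 2 = 1 → a % 2 = 0 →
        ∑ i ∈ range (2 ^ k), t ^ J (k + 1) (a + d * (2 * i)) = (1 + t) ^ k := by
      intro a d hd ha
      rw [← ih (a / 2) d hd]
      refine sum_congr rfl fun i _ => ?_
      have e : d * (2 * i) = 2 * (d * i) := by ring
      have h1 : (a + d * (2 * i)) % 2 = 0 := by omega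
      have h2 : T (a + d * (2 * i)) = a / 2 + d * i := by
        unfold T; rw [if_pos h1]; omega
      rw [J, h1, h2, zero_add]
    have h1 : ∀ a d : ℕ, d % 2 = 1 → a % 2 = 1 →
        ∑ i ∈ range (2 ^ k), t ^ J (k + 1) (a + d * (2 * i)) = t * (1 + t) ^ k := by
      intro a d hd ha
      rw [← ih ((3 * a + 1) / 2) (3 * d) (by omega), mul_sum]
      refine sum_congr rfl fun i _ => ?_
      have e : d * (2 * i) = 2 * (d * i) := by ring
      have e' : 3 * d * i = 3 * (d * i) := by ring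
      have h1 : (a + d * (2 * i)) % 2 = 1 := by omega
      have h2 : T (a + d * (2 * i)) = (3 * a + 1) / 2 + 3 * d * i := by
        unfold T; rw [if_neg (by omega)]; omega
      rw [J, h1, h2, pow_add, pow_one]
    intro a d hd
    rw [pow_succ', sum_two]
    have e : ∀ i, a + d * (2 * i + 1) = (a + d) + d * (2 * i) := fun i => by ring
    simp only [e]
    rcases Nat.mod_two_eq_zero_or_one a with ha | ha
    · rw [h0 a d hd ha, h1 (a + d) d hd (by omega)]; ring
    · rw [h1 a d hd ha, h0 (a + d) d hd (by omega)]; ring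

lemma T_bound (k : ℕ) : ∀ y : ℕ, ∀ c : ℝ, 1 ≤ c → (y : ℝ) ≤ c * 2 ^ k →
    (T^[k] y : ℝ) + 1 ≤ (c + 1) * 3 ^ J k y := by
  suffices H : ∀ y : ℕ, (T^[k] y : ℝ) + 1 ≤ y / 2 ^ k * 3 ^ J k y + (3 / 2) ^ J k y by
    intro y c hc hy
    refine (H y).trans ?_
    have h1 : (y : ℝ) / 2 ^ k ≤ c := by rw [div_le_iff₀ (by positivity)]; exact hy
    have h2 : ((3 : ℝ) / 2) ^ J k y ≤ 3 ^ J k y := pow_le_pow_left₀ (by norm_num) (by norm_num) _
    have h3 : (0 : ℝ) < 3 ^ J k y := by positivity
    nlinarith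
  suffices H : ∀ y : ℕ, ∀ e : ℝ, 0 ≤ e → ∀ z : ℝ, (y : ℝ) ≤ z + e →
      (T^[k] y : ℝ) + 1 ≤ z / 2 ^ k * 3 ^ J k y + (e + 1) * (3 / 2) ^ J k y by
    intro y
    simpa using H y 0 le_rfl y (by simp)
  induction k with
  | zero => intro y e _ z h; simp [J]; linarith
  | succ k ih =>
    intro y e he z h
    rw [Function.iterate_succ_apply, J]
    rcases Nat.mod_two_eq_zero_or_one y with hy | hy
    · have h1 : (T y : ℝ) = y / 2 := by
        unfold T; rw [if_pos hy, Nat.cast_div (by omega) (by norm_num)]; norm_num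
      have := ih (T y) e he (z / 2) (by rw [h1]; linarith)
      rw [hy, zero_add]
      convert this using 2
      ring
    · have h1 : (T y : ℝ) = (3 * y + 1) / 2 := by
        unfold T; rw [if_neg (by omega), Nat.cast_div (by omega) (by norm_num)]; norm_num
      have := ih (T y) ((3 * e + 1) / 2) (by positivity) (3 * z / 2) (by rw [h1]; linarith)
      rw [hy]
      convert this using 2 <;> ring

lemma count (A : Finset ℕ) (k : ℕ) (hA : Set.InjOn T^[k] A) (h : ∀ z ∈ A, Nat.log 2 z = k)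
    (h0 : ∀ z ∈ A, z ≠ 0) : (A.card : ℝ) ≤ 4 * 1.97 ^ k := by
  classical
  have hz : ∀ z ∈ A, 2 ^ k ≤ z ∧ z < 2 ^ (k + 1) := fun z hz =>
    ⟨h z hz ▸ Nat.pow_log_le_self 2 (h0 z hz), h z hz ▸ Nat.lt_pow_succ_log_self (by norm_num) z⟩
  rw [← card_filter_add_card_filter_not (fun z => 5 * J k z ≤ 3 * k)]
  have h1 : ((A.filter fun z => 5 * J k z ≤ 3 * k).card : ℝ) ≤ 3 * 1.97 ^ k := by
    have : (A.filter fun z => 5 * J k z ≤ 3 * k).card ≤ (range ⌊3 * (1.97 : ℝ) ^ k⌋₊).card := by
      apply card_le_card_of_injOn T^[k]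
      · intro z hz'
        obtain ⟨hzA, hj⟩ := mem_filter.1 hz'
        have b1 := T_bound k z 2 (by norm_num) (by
          have := (hz z hzA).2.le
          rw [pow_succ'] at this
          exact_mod_cast this)
        have b2 : (3 : ℝ) ^ J k z ≤ 1.97 ^ k := by
          apply le_of_pow_le_pow_left₀ (n := 5) (by norm_num) (by positivity)
          rw [← pow_mul, ← pow_mul, mul_comm k]
          calc (3 : ℝ) ^ (J k z * 5) ≤ 3 ^ (3 * k) := pow_le_pow_right₀ (by norm_num) (by omega)
            _ ≤ _ := by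
              rw [pow_mul, pow_mul]; exact pow_le_pow_left₀ (by norm_num) (by norm_num) _
        simp only [coe_range, Set.mem_Iio]
        apply Nat.lt_of_succ_le
        apply Nat.le_floor
        push_cast
        linarith
      · exact hA.mono (by intro z hz; exact (mem_filter.1 hz).1)
    rw [card_range] at this
    exact (Nat.cast_le.2 this).trans (Nat.floor_le (by positivity))
  have h2 : ((A.filter fun z => ¬ 5 * J k z ≤ 3 * k).card : ℝ) ≤ 1.97 ^ k := by
    have s1 := sumJ (3 / 2) k (2 ^ k) 1 rfl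
    have s2 : ((A.filter fun z => ¬ 5 * J k z ≤ 3 * k).card : ℝ) * 1.275 ^ k ≤
        ∑ i ∈ range (2 ^ k), ((3 : ℝ) / 2) ^ J k (2 ^ k + 1 * i) := by
      simp only [one_mul]
      rw [← sum_image (s := range (2 ^ k)) (g := fun i => 2 ^ k + i)
        (f := fun z => ((3 : ℝ) / 2) ^ J k z) (by intro i _ j _ h; simpa using h)]
      refine le_trans ?_ (sum_le_sum_of_subset_of_nonneg (s := A.filter fun z => ¬ 5 * J k z ≤ 3 * k)
        ?_ (fun _ _ _ => by positivity))
      · rw [← nsmul_eq_mul]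
        apply card_nsmul_le_sum
        intro z hz'
        obtain ⟨_, hj⟩ := mem_filter.1 hz'
        apply le_of_pow_le_pow_left₀ (n := 5) (by norm_num) (by positivity)
        rw [← pow_mul, ← pow_mul, mul_comm k, pow_mul]
        calc ((1.275 : ℝ) ^ 5) ^ k ≤ ((3 / 2) ^ 3) ^ k :=
              pow_le_pow_left₀ (by norm_num) (by norm_num) _
          _ ≤ _ := by rw [← pow_mul]; exact pow_le_pow_right₀ (by norm_num) (by omega)
      · intro z hz'
        have := hz z (mem_filter.1 hz').1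
        rw [pow_succ] at this
        exact mem_image.2 ⟨z - 2 ^ k, mem_range.2 (by omega), by omega⟩
    rw [s1] at s2
    have s3 : ((1 : ℝ) + 3 / 2) ^ k ≤ 1.97 ^ k * 1.275 ^ k := by
      rw [← mul_pow]; exact pow_le_pow_left₀ (by norm_num) (by norm_num) _
    exact le_of_mul_le_mul_right (s2.trans s3) (by positivity)
  push_cast
  linarith

lemma recip (A : Finset ℕ) (hA : ∀ k, Set.InjOn T^[k] A) (h0 : ∀ z ∈ A, z ≠ 0) :
    ∑ z ∈ A, (1 : ℝ) / z ≤ 400 := by
  classical
  rw [← sum_fiberwise_of_maps_to (g := Nat.log 2) (t := range (A.sup (Nat.log 2) + 1))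
    (fun z hz => mem_range.2 (Nat.lt_succ_of_le (le_sup (f := Nat.log 2) hz)))]
  have h1 : ∀ k, ∑ z ∈ A with Nat.log 2 z = k, (1 : ℝ) / z ≤ 4 * 0.99 ^ k := by
    intro k
    have c := count (A.filter fun z => Nat.log 2 z = k) k
      ((hA k).mono (by intro z hz; exact (mem_filter.1 hz).1))
      (fun z hz => (mem_filter.1 hz).2) (fun z hz => h0 z (mem_filter.1 hz).1)
    refine (sum_le_card_nsmul _ _ (1 / 2 ^ k) ?_).trans ?_
    · intro z hz
      obtain ⟨hz1, hz2⟩ := mem_filter.1 hz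
      apply one_div_le_one_div_of_le (by positivity)
      exact_mod_cast hz2 ▸ Nat.pow_log_le_self 2 (h0 z hz1)
    · rw [nsmul_eq_mul, mul_one_div, div_le_iff₀ (by positivity), mul_assoc, ← mul_pow]
      refine c.trans ?_
      gcongr
      norm_num
  refine (sum_le_sum fun k _ => h1 k).trans ?_
  rw [← mul_sum, geom_sum_eq (by norm_num)]
  have : (0 : ℝ) < 0.99 ^ (A.sup (Nat.log 2) + 1) := by positivity
  rw [show ∀ u : ℝ, (u - 1) / (0.99 - 1) = 100 * (1 - u) by intro u; ring]
  linarith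

lemma step (y : ℕ) : 2 ^ padicValNat 2 (3 * y + 1) *
    ((3 * y + 1) / 2 ^ padicValNat 2 (3 * y + 1)) = 3 * y + 1 :=
  Nat.mul_div_cancel' pow_padicValNat_dvd

lemma orb_odd (x : ℕ) (hx : Odd x) (n : ℕ) : Odd (orb x n) := by
  cases n with
  | zero => exact hx
  | succ n =>
    rw [orb, ← Nat.not_even_iff_odd, even_iff_two_dvd]
    rintro ⟨c, hc⟩
    apply pow_succ_padicValNat_not_dvd (p := 2) (n := 3 * orb x n + 1) (by omega)
    refine ⟨c, ?_⟩
    conv_lhs => rw [← step, hc]
    ring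

lemma T_pow (k : ℕ) : ∀ w, T^[k] (2 ^ k * w) = w := by
  induction k with
  | zero => simp
  | succ k ih =>
    intro w
    have e : 2 ^ (k + 1) * w = 2 * (2 ^ k * w) := by ring
    rw [Function.iterate_succ_apply, e, T, if_pos (by omega), Nat.mul_div_cancel_left _ two_pos, ih]

lemma eseq_pos (x : ℕ) (hx : Odd x) (n : ℕ) : 1 ≤ eseq x (n + 1) := by
  obtain ⟨c, hc⟩ := orb_odd x hx n
  exact one_le_padicValNat_of_dvd (by omega) (by simp only [Nat.add_sub_cancel]; omega)

lemma b_succ (a : ℕ → ℕ) (n : ℕ) : b a (n + 1) = b a n + a (n + 1) := by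
  unfold b; rw [sum_Icc_succ_top (by omega)]

lemma T_orb (x : ℕ) (hx : Odd x) (n : ℕ) : T^[b (eseq x) n] x = orb x n := by
  induction n with
  | zero => simp [b, orb]
  | succ n ih =>
    obtain ⟨v, hv⟩ := Nat.exists_eq_add_of_le' (eseq_pos x hx n)
    rw [b_succ, add_comm, Function.iterate_add_apply, ih, hv, Function.iterate_succ_apply]
    obtain ⟨c, hc⟩ := orb_odd x hx n
    have h1 := step (orb x n)
    have h2 : padicValNat 2 (3 * orb x n + 1) = v + 1 := hv
    have h3 : T (orb x n) = 2 ^ v * orb x (n + 1) := by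
      rw [T, if_neg (by omega)]
      apply Nat.div_eq_of_eq_mul_right two_pos
      conv_lhs => rw [← h1]
      rw [orb, h2]; ring
    rw [h3, T_pow]

lemma growth (x : ℕ) (hx : Odd x) (n : ℕ) : (2 : ℝ) ^ b (eseq x) n * orb x n ≤
    x * 3 ^ n * Real.exp (∑ i ∈ range n, (1 : ℝ) / orb x i) := by
  induction n with
  | zero => simp [b, orb]
  | succ n ih =>
    have h1 : (2 : ℝ) ^ eseq x (n + 1) * orb x (n + 1) = 3 * orb x n + 1 := by
      exact_mod_cast step (orb x n)
    have h2 : (0 : ℝ) < orb x n := by exact_mod_cast (orb_odd x hx n).pos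
    have h3 : 3 * (orb x n : ℝ) + 1 ≤ orb x n * (3 * Real.exp (1 / orb x n)) := by
      have := Real.add_one_le_exp (1 / orb x n)
      have e : (orb x n : ℝ) * (1 / orb x n) = 1 := by field_simp
      nlinarith
    rw [b_succ, pow_add, mul_assoc, h1, sum_range_succ, Real.exp_add]
    calc _ ≤ (2 : ℝ) ^ b (eseq x) n * (orb x n * (3 * Real.exp (1 / orb x n))) := by gcongr
      _ = (2 : ℝ) ^ b (eseq x) n * orb x n * (3 * Real.exp (1 / orb x n)) := by ring
      _ ≤ x * 3 ^ n * Real.exp (∑ i ∈ range n, (1 : ℝ) / orb x i) *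
        (3 * Real.exp (1 / orb x n)) := by gcongr
      _ = _ := by ring

theorem result (a : ℕ → ℕ) (hnp : ¬ EvPeriodic a)
    (hb : {n : ℕ | n * Real.logb 2 3 < b a n}.Infinite) :
    ¬ ∃ x, Odd x ∧ 0 < x ∧ ∀ n, 1 ≤ n → a n = eseq x n := by
  rintro ⟨x, hx, _, ha⟩
  have hbe : ∀ n, b a n = b (eseq x) n := fun n =>
    sum_congr rfl fun i hi => ha i (mem_Icc.1 hi).1
  have hinj : Function.Injective (orb x) := by
    apply Function.Injective.of_lt_imp_ne
    intro i j hij h
    apply hnp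
    obtain ⟨r, rfl⟩ := Nat.exists_eq_add_of_lt hij
    have : ∀ m, orb x (i + m) = orb x (i + r + 1 + m) := by
      intro m
      induction m with
      | zero => exact h
      | succ m ih => rw [← add_assoc, ← add_assoc, orb, orb, ih]
    refine ⟨i, r + 1, by omega, fun n hn => ?_⟩
    rw [ha _ (by omega), ha _ (by omega), eseq, eseq,
      show n + (r + 1) - 1 = i + r + 1 + (n - 1 - i) by omega, ← this,
      show i + (n - 1 - i) = n - 1 by omega]
  have hmono : StrictMono (b (eseq x)) := strictMono_nat_of_lt_succ fun n => by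
    have := eseq_pos x hx n
    rw [b_succ]; omega
  have hy : Function.Injective fun i => T^[i] x := by
    apply Function.Injective.of_lt_imp_ne
    intro s t hst h
    have hr : ∀ i, T^[i] x ∈ (range t).image fun i => T^[i] x := by
      intro i
      induction i using Nat.strong_induction_on with
      | _ i ih =>
        by_cases hi : i < t
        · exact mem_image.2 ⟨i, mem_range.2 hi, rfl⟩
        · have : T^[i] x = T^[i - t + s] x := by
            rw [Function.iterate_add_apply, h, ← Function.iterate_add_apply]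
            congr 1; omega
          rw [this]
          exact ih _ (by omega)
    apply Set.infinite_range_of_injective hinj
    apply (Finset.finite_toSet ((range t).image fun i => T^[i] x)).subset
    rintro _ ⟨n, rfl⟩
    rw [← T_orb x hx]
    exact hr _
  have hs : ∀ n, ∑ i ∈ range n, (1 : ℝ) / orb x i ≤ 400 := by
    intro n
    rw [← sum_image (s := range n) (g := orb x) (f := fun z : ℕ => (1 : ℝ) / z) hinj.injOn]
    apply recip
    · intro k u hu v hv h
      obtain ⟨i, _, rfl⟩ := mem_image.1 hu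
      obtain ⟨j, _, rfl⟩ := mem_image.1 hv
      rw [← T_orb x hx, ← T_orb x hx, ← Function.iterate_add_apply,
        ← Function.iterate_add_apply] at h
      have := hy h
      rw [hmono.injective (show b (eseq x) i = b (eseq x) j by omega)]
    · intro z hz
      obtain ⟨i, _, rfl⟩ := mem_image.1 hz
      exact (orb_odd x hx i).pos.ne'
  apply hb
  apply Set.Finite.of_finite_image _ hinj.injOn
  apply (Set.finite_Iic ⌊x * Real.exp 400⌋₊).subset
  rintro _ ⟨n, hn, rfl⟩
  apply Nat.le_floor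
  have h1 : (3 : ℝ) ^ n ≤ 2 ^ b (eseq x) n := by
    rw [← hbe, ← Real.rpow_natCast 2, ← Real.rpow_logb (b := 2) (x := 3) two_pos (by norm_num)
      three_pos, ← Real.rpow_natCast, ← Real.rpow_mul (by norm_num)]
    apply Real.rpow_le_rpow_of_exponent_le (by norm_num)
    rw [mul_comm]
    exact le_of_lt hn
  have h2 := growth x hx n
  have h3 : Real.exp (∑ i ∈ range n, (1 : ℝ) / orb x i) ≤ Real.exp 400 := Real.exp_le_exp.2 (hs n)
  have h4 : (3 : ℝ) ^ n * orb x n ≤ 3 ^ n * (x * Real.exp 400) := by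
    calc (3 : ℝ) ^ n * orb x n ≤ 2 ^ b (eseq x) n * orb x n := by gcongr
      _ ≤ _ := h2
      _ ≤ x * 3 ^ n * Real.exp 400 := by gcongr
      _ = _ := by ring
  exact le_of_mul_le_mul_left h4 (by positivity)

end Pool.Agent.Results.MP_eea90e_nt.Divergent
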